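import Mathlib

namespace Pool.Agent.Results.MP_a8cd80_co.Lower

open Finset Filter Topology

/-- Number of occurrences of the letter `a` in the factor `w s, ..., w (s + l - 1)`. -/
def cnt (w : ℕ → Fin 2) (a : Fin 2) (s l : ℕ) : ℕ := #{i ∈ range l | w (s + i) = a}

/-- No factor of `w` is an abelian fourth power. -/
def AvoidsAb4 (w : ℕ → Fin 2) : Prop :=
  ∀ s l, 0 < l → ¬ ∀ a : Fin 2, cnt w a s l = cnt w a (s + l) l ∧
    cnt w a (s + l) l = cnt w a (s + 2 * l) l ∧ cnt w a (s + 2 * l) l = cnt w a (s + 3 * l) l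

def get (Z i : ℕ) : ℕ := Z / 256 ^ i % 256

def bad (Z n : ℕ) : Bool := (List.range (n / 4)).any fun j =>
  Nat.beq (get Z 0 + get Z (2 * (j + 1))) (2 * get Z (j + 1)) &&
  (Nat.beq (get Z (j + 1) + get Z (3 * (j + 1))) (2 * get Z (2 * (j + 1))) &&
  Nat.beq (get Z (2 * (j + 1)) + get Z (4 * (j + 1))) (2 * get Z (3 * (j + 1))))

def force (x : ℕ) (k : ℕ → Bool) : Bool :=
  match x with
  | 0 => k 0
  | y + 1 => k (y + 1)

theorem force_eq (x : ℕ) (k : ℕ → Bool) : force x k = k x := by cases x <;> rfl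

def chk : ℕ → ℕ → ℕ → Bool
  | 0, _, _ => false
  | f + 1, n, Z => force (n + 1) fun m =>
      (force (Z * 256 + Z % 256) fun Y =>
        Nat.ble (9 * m) (25 * (Y % 256)) || (bad Y m || chk f m Y)) &&
      (force (Z * 256 + (Z % 256 + 1)) fun Y =>
        Nat.ble (9 * m) (25 * (Y % 256)) || (bad Y m || chk f m Y))

theorem run : chk 80 0 0 = true := by decide +kernel

theorem cnt_succ (w : ℕ → Fin 2) (a : Fin 2) (s l : ℕ) :
    cnt w a s (l + 1) = cnt w a s l + if w (s + l) = a then 1 else 0 := by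
  unfold cnt
  rw [range_add_one, filter_insert]
  split_ifs
  · rw [card_insert_of_notMem (by simp)]
  · rfl

theorem cnt_add (w : ℕ → Fin 2) (a : Fin 2) (s k l : ℕ) :
    cnt w a s (k + l) = cnt w a s k + cnt w a (s + k) l := by
  induction l with
  | zero => simp [cnt]
  | succ l ih => rw [← add_assoc, cnt_succ, cnt_succ, ih, add_assoc s k l, add_assoc]

theorem cnt_tot (w : ℕ → Fin 2) (s l : ℕ) : cnt w 0 s l + cnt w 1 s l = l := by
  induction l with
  | zero => simp [cnt]
  | succ l ih =>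
    rw [cnt_succ, cnt_succ]
    have : ∀ x : Fin 2, (if x = 0 then 1 else 0) + (if x = 1 then 1 else 0) = 1 := by decide
    have := this (w (s + l))
    omega

def enc (w : ℕ → Fin 2) (s : ℕ) : ℕ → ℕ
  | 0 => 0
  | n + 1 => enc w s n * 256 + cnt w 0 s (n + 1)

theorem get_enc (w : ℕ → Fin 2) (s : ℕ) : ∀ i n, i ≤ n → n < 256 →
    get (enc w s n) i = cnt w 0 s (n - i) := by
  intro i
  induction i with
  | zero =>
    intro n _ hn
    have := cnt_tot w s n
    cases n with
    | zero => simp [get, enc, cnt]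
    | succ n => simp only [get, enc, pow_zero, Nat.div_one, Nat.sub_zero]; omega
  | succ i ih =>
    intro n hi hn
    obtain ⟨n, rfl⟩ : ∃ k, n = k + 1 := ⟨n - 1, by omega⟩
    have := cnt_tot w s (n + 1)
    have e : enc w s (n + 1) / 256 = enc w s n := by simp only [enc]; omega
    have := ih n (by omega) (by omega)
    unfold get at this ⊢
    rw [pow_succ', ← Nat.div_div_eq_div_mul, e, this, Nat.add_sub_add_right]

theorem not_bad (w : ℕ → Fin 2) (hw : AvoidsAb4 w) (s n : ℕ) (hn : n < 256) :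
    bad (enc w s n) n ≠ true := by
  intro h
  simp only [bad, List.any_eq_true, List.mem_range, Bool.and_eq_true, Nat.beq_eq] at h
  obtain ⟨j, hj, h1, h2, h3⟩ := h
  generalize hl : j + 1 = l at h1 h2 h3
  obtain ⟨t, rfl⟩ : ∃ t, n = t + 4 * l := ⟨n - 4 * l, by omega⟩
  rw [get_enc _ _ _ _ (by omega) hn, get_enc _ _ _ _ (by omega) hn,
    get_enc _ _ _ _ (by omega) hn] at h1 h2 h3
  rw [show t + 4 * l - 0 = t + 3 * l + l by omega, show t + 4 * l - 2 * l = t + 2 * l by omega,
    show t + 4 * l - l = t + 3 * l by omega] at h1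
  rw [show t + 4 * l - 3 * l = t + l by omega, show t + 4 * l - 2 * l = t + 2 * l by omega,
    show t + 4 * l - l = t + 3 * l by omega] at h2
  rw [show t + 4 * l - 3 * l = t + l by omega, show t + 4 * l - 2 * l = t + 2 * l by omega,
    show t + 4 * l - 4 * l = t by omega] at h3
  have a1 := cnt_add w 0 s t l
  have a2 := cnt_add w 0 s (t + l) l
  have a3 := cnt_add w 0 s (t + 2 * l) l
  have a4 := cnt_add w 0 s (t + 3 * l) l
  rw [show t + l + l = t + 2 * l by omega, ← add_assoc] at a2
  rw [show t + 2 * l + l = t + 3 * l by omega, ← add_assoc] at a3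
  rw [← add_assoc s] at a4
  have b1 := cnt_tot w (s + t) l
  have b2 := cnt_tot w (s + t + l) l
  have b3 := cnt_tot w (s + t + 2 * l) l
  have b4 := cnt_tot w (s + t + 3 * l) l
  refine hw (s + t) l (by omega) (Fin.forall_fin_two.2 ⟨?_, ?_⟩) <;> omega

theorem sound (w : ℕ → Fin 2) (hw : AvoidsAb4 w) (s : ℕ) : ∀ f n, n + f < 256 →
    chk f n (enc w s n) = true → ∃ m, 0 < m ∧ 9 * m ≤ 25 * cnt w 0 s m := by
  intro f
  induction f with
  | zero => intro n _ h; simp [chk] at h
  | succ f ih =>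
    intro n hn h
    have g0 : enc w s n % 256 = cnt w 0 s n := by
      simpa [get] using get_enc w s 0 n (by omega) (by omega)
    have g1 : enc w s (n + 1) % 256 = cnt w 0 s (n + 1) := by
      simpa [get] using get_enc w s 0 (n + 1) (by omega) (by omega)
    have key : (Nat.ble (9 * (n + 1)) (25 * (enc w s (n + 1) % 256)) ||
        (bad (enc w s (n + 1)) (n + 1) || chk f (n + 1) (enc w s (n + 1)))) = true := by
      simp only [chk, force_eq, Bool.and_eq_true] at h
      have e : enc w s (n + 1) = enc w s n * 256 + cnt w 0 s (n + 1) := rfl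
      rw [cnt_succ, ← g0] at e
      rw [e]
      split_ifs
      · exact h.2
      · exact h.1
    simp only [Bool.or_eq_true, Nat.ble_eq] at key
    rcases key with k | k | k
    · exact ⟨n + 1, by omega, g1 ▸ k⟩
    · exact absurd k (not_bad w hw s _ (by omega))
    · exact ih _ (by omega) k

/-- In an infinite binary word avoiding abelian fourth powers, the frequency of `0`, if it
exists, is at least `9/25`. -/
theorem result (w : ℕ → Fin 2) (hw : AvoidsAb4 w) (f : ℝ)
    (hf : Tendsto (fun n : ℕ => (cnt w 0 0 n : ℝ) / n) atTop (𝓝 f)) : 9 / 25 ≤ f := by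
  have step : ∀ k, ∃ m, k < m ∧ 9 * m ≤ 25 * cnt w 0 0 m := by
    intro k
    induction k with
    | zero => exact sound w hw 0 80 0 (by norm_num) run
    | succ k ih =>
      obtain ⟨m, h1, h2⟩ := ih
      obtain ⟨n, h3, h4⟩ := sound w hw m 80 0 (by norm_num) run
      have := cnt_add w 0 0 m n
      rw [zero_add] at this
      exact ⟨m + n, by omega, by omega⟩
  refine isClosed_Ici.mem_of_frequently_of_tendsto (frequently_atTop.2 fun k => ?_) hf
  obtain ⟨m, h1, h2⟩ := step k
  refine ⟨m, h1.le, ?_⟩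
  have hm : (0 : ℝ) < m := by exact_mod_cast (by omega : 0 < m)
  have h3 : (9 * m : ℝ) ≤ 25 * cnt w 0 0 m := by exact_mod_cast h2
  rw [Set.mem_Ici, div_le_div_iff₀ (by norm_num) hm]
  linarith

end Pool.Agent.Results.MP_a8cd80_co.Lower
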